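import Mathlib

/-!
# SY brick G1: a normal subgroup of symplectic type (group theory)
-/

set_option autoImplicit false

open scoped BigOperators Classical commutatorElement

namespace Pool.Agent.K3h43.IN

section

variable {G : Type} [Group G]

/-- commutators of a product with the center -/
lemma comm_sup (H : Subgroup G) : ⁅H ⊔ Subgroup.center G, H ⊔ Subgroup.center G⁆ ≤ ⁅H, H⁆ := by
  rw [Subgroup.commutator_le]
  intro a ha b hb
  obtain ⟨a', ha', z, hz, rfl⟩ := Subgroup.mem_sup_of_normal_right.mp ha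
  obtain ⟨b', hb', w, hw, rfl⟩ := Subgroup.mem_sup_of_normal_right.mp hb
  have hz' := Subgroup.mem_center_iff.mp hz
  have hw' := Subgroup.mem_center_iff.mp hw
  have e : ⁅a' * z, b' * w⁆ = ⁅a', b'⁆ := by
    rw [commutatorElement_def, commutatorElement_def, mul_inv_rev, mul_inv_rev]
    have h1 : a' * z * (b' * w) * (z⁻¹ * a'⁻¹) * (w⁻¹ * b'⁻¹) =
        a' * (z * (b' * w) * z⁻¹) * a'⁻¹ * (w⁻¹ * b'⁻¹) := by group
    have h2 : z * (b' * w) * z⁻¹ = b' * w := by
      rw [← hz' (b' * w)]; group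
    rw [h1, h2]
    have h3 : a' * (b' * w) * a'⁻¹ * (w⁻¹ * b'⁻¹) = a' * b' * (w * a'⁻¹) * w⁻¹ * b'⁻¹ := by group
    rw [h3, ← hw' a'⁻¹]
    group
  rw [e]
  exact Subgroup.commutator_mem_commutator ha' hb'

/-- a perfect subgroup of a solvable subgroup is trivial -/
lemma perfect_bot (B D : Subgroup G) (hB : Group.IsSolvable B) (hDB : D ≤ B) (hD : ⁅D, D⁆ = D) :
    D = ⊥ := by
  by_contra hne
  set H := D.subgroupOf B with hH
  have hmap : H.map B.subtype = D := Subgroup.map_subgroupOf_eq_of_le hDB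
  have hHne : H ≠ ⊥ := by
    intro h
    rw [h, Subgroup.map_bot] at hmap
    exact hne hmap.symm
  have hlt := Group.IsSolvable.commutator_lt_of_ne_bot hHne
  have h1 : (⁅H, H⁆).map B.subtype = H.map B.subtype := by
    rw [Subgroup.map_commutator, hmap, hD]
  have h2 := Subgroup.map_injective B.subtype_injective h1
  exact hlt.ne h2

/-- normal `p`-subgroups are contained in the Sylow subgroups -/
lemma normal_le_sylow {p : ℕ} [Fact p.Prime] (Q : Sylow p G) (N : Subgroup G) [N.Normal]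
    (hN : IsPGroup p N) : N ≤ Q := by
  have h1 : IsPGroup p ((Q : Subgroup G) ⊔ N : Subgroup G) := Q.isPGroup'.to_sup_of_normal_right hN
  have h2 := Q.is_maximal' h1 le_sup_left
  exact le_sup_right.trans h2.le

variable [Finite G]

/-- a normal subgroup which is a `p`-group modulo the center normalises the Sylow subgroups -/
lemma le_normalizer {p : ℕ} [Fact p.Prime] (P : Sylow p G) (L : Subgroup G) [L.Normal]
    (hL : ∀ l ∈ L, l ^ p ∈ Subgroup.center G) :
    L ≤ Subgroup.normalizer ((P : Subgroup G) : Set G) := by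
  set π := QuotientGroup.mk' (Subgroup.center G) with hπ
  have hs : Function.Surjective π := QuotientGroup.mk'_surjective _
  have hN : (L.map π).Normal := Subgroup.Normal.map inferInstance π hs
  have hp : IsPGroup p (L.map π) := by
    rintro ⟨x, hx⟩
    obtain ⟨l, hl, rfl⟩ := hx
    refine ⟨1, Subtype.ext ?_⟩
    show (π l) ^ p ^ 1 = 1
    rw [pow_one, ← map_pow, hπ, QuotientGroup.mk'_apply, QuotientGroup.eq_one_iff]
    exact hL l hl
  have h1 := normal_le_sylow (P.mapSurjective hs) (L.map π) hp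
  intro l hl
  have h2 : π l ∈ (P.mapSurjective hs : Subgroup (G ⧸ Subgroup.center G)) :=
    h1 (Subgroup.mem_map_of_mem π hl)
  rw [Sylow.coe_mapSurjective] at h2
  obtain ⟨x, hx, hxl⟩ := h2
  have h3 : x⁻¹ * l ∈ Subgroup.center G := by
    rw [← QuotientGroup.eq]
    exact hxl
  have h4 : l = x * (x⁻¹ * l) := by group
  rw [h4]
  refine Subgroup.mul_mem _ (Subgroup.le_normalizer hx) ?_
  exact Subgroup.center_le_normalizer _ h3

/-- The main step: a normal subgroup of class two of prime exponent modulo the center. -/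
theorem main (p : ℕ) [Fact p.Prime] (P : Sylow p G)
    (hP : Subgroup.normalizer ((P : Subgroup G) : Set G) ≠ ⊤)
    (hA : ∀ A : Subgroup G, A.Normal → (∀ a ∈ A, ∀ b ∈ A, a * b = b * a) → A ≤ Subgroup.center G)
    (hB : ∀ N : Subgroup G, N.Normal → ¬ N ≤ Subgroup.center G →
      N ⊔ Subgroup.normalizer ((P : Subgroup G) : Set G) = ⊤)
    (B : Subgroup G) (hBn : B.Normal) (hBs : Group.IsSolvable B) (hBz : ¬ B ≤ Subgroup.center G) :
    ∃ q : ℕ, q.Prime ∧ q ≠ p ∧ ∃ L : Subgroup G, (L.Normal ∧ Subgroup.center G ≤ L ∧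
      (∀ l ∈ L, l ^ q ∈ Subgroup.center G) ∧
      (∀ a ∈ L, ∀ b ∈ L, a * b * a⁻¹ * b⁻¹ ∈ Subgroup.center G) ∧
      (∀ l ∈ L, (∀ m ∈ L, l * m = m * l) → l ∈ Subgroup.center G)) ∧ L ≠ Subgroup.center G ∧
      ∀ L' : Subgroup G, L'.Normal → Subgroup.center G ≤ L' → L' ≤ L →
        L' = Subgroup.center G ∨ L' = L := by
  set Z := Subgroup.center G with hZ
  set s : Set (Subgroup G) := {L | L.Normal ∧ Z ≤ L ∧ L ≠ Z ∧ L ≤ B ⊔ Z} with hs
  have hne : s.Nonempty := by
    refine ⟨B ⊔ Z, inferInstance, le_sup_right, ?_, le_rfl⟩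
    intro h
    exact hBz (h ▸ le_sup_left)
  obtain ⟨L, hLs, hLmin⟩ := (Set.toFinite s).exists_minimal hne
  obtain ⟨hLn, hZL, hLZ, hLB⟩ := hLs
  have hmin : ∀ L' : Subgroup G, L'.Normal → Z ≤ L' → L' ≤ L → L' = Z ∨ L' = L := by
    intro L' h1 h2 h3
    by_cases h4 : L' = Z
    · exact Or.inl h4
    · exact Or.inr (le_antisymm h3 (hLmin ⟨h1, h2, h4, h3.trans hLB⟩ h3))
  -- commutators
  have hcomm : ⁅L, L⁆ ≤ Z := by
    have hCn : (⁅L, L⁆ ⊔ Z).Normal := inferInstance
    have hCL : ⁅L, L⁆ ⊔ Z ≤ L := sup_le (Subgroup.commutator_le_left L L) hZL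
    rcases hmin _ hCn le_sup_right hCL with h | h
    · rw [← h]
      exact le_sup_left
    · exfalso
      have h1 : ⁅L, L⁆ ≤ ⁅⁅L, L⁆, ⁅L, L⁆⁆ := by
        calc ⁅L, L⁆ = ⁅⁅L, L⁆ ⊔ Z, ⁅L, L⁆ ⊔ Z⁆ := by rw [h]
          _ ≤ _ := comm_sup _
      have h2 : ⁅⁅L, L⁆, ⁅L, L⁆⁆ = ⁅L, L⁆ :=
        le_antisymm (Subgroup.commutator_le_left _ _) h1
      have h3 : ⁅L, L⁆ ≤ B := by
        refine (Subgroup.commutator_mono hLB hLB).trans ((comm_sup B).trans ?_)
        exact Subgroup.commutator_le_left B B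
      have h4 := perfect_bot B ⁅L, L⁆ hBs h3 h2
      rw [h4, bot_sup_eq] at h
      exact hLZ h.symm
  have hcom : ∀ a ∈ L, ∀ b ∈ L, a * b * a⁻¹ * b⁻¹ ∈ Z := fun a ha b hb =>
    hcomm (Subgroup.commutator_mem_commutator ha hb)
  set π := QuotientGroup.mk' Z with hπ
  have hker : ∀ x, π x = 1 ↔ x ∈ Z := fun x => by
    rw [hπ, QuotientGroup.mk'_apply, QuotientGroup.eq_one_iff]
  have hcommute : ∀ a ∈ L, ∀ b ∈ L, Commute (π a) (π b) := by
    intro a ha b hb
    have h1 := (hker _).mpr (hcom a ha b hb)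
    rw [map_mul, map_mul, map_mul, map_inv, map_inv] at h1
    show π a * π b = π b * π a
    rw [mul_inv_eq_one, mul_inv_eq_iff_eq_mul] at h1
    exact h1
  -- the prime
  obtain ⟨l₀, hl₀, hl₀Z⟩ : ∃ l ∈ L, l ∉ Z := by
    by_contra hcon
    push Not at hcon
    exact hLZ (le_antisymm (fun x hx => hcon x hx) hZL)
  have hord : orderOf (π l₀) ≠ 1 := by
    rw [Ne, orderOf_eq_one_iff, hker]
    exact hl₀Z
  set q := (orderOf (π l₀)).minFac with hq
  have hqp : q.Prime := Nat.minFac_prime hord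
  have hqd : q ∣ orderOf (π l₀) := Nat.minFac_dvd _
  set l₁ := l₀ ^ (orderOf (π l₀) / q) with hl₁
  have hl₁L : l₁ ∈ L := Subgroup.pow_mem _ hl₀ _
  have hord1 : orderOf (π l₁) = q := by
    rw [hl₁, map_pow]
    exact orderOf_pow_orderOf_div (orderOf_pos _).ne' hqd
  have hl₁Z : l₁ ∉ Z := by
    rw [← hker, ← orderOf_eq_one_iff, hord1]
    exact hqp.one_lt.ne'
  have hl₁q : (π l₁) ^ q = 1 := by rw [← hord1]; exact pow_orderOf_eq_one _
  -- the exponent
  let T : Subgroup G :=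
    { carrier := {l | l ∈ L ∧ (π l) ^ q = 1}
      mul_mem' := by
        rintro a b ⟨ha, ha'⟩ ⟨hb, hb'⟩
        refine ⟨L.mul_mem ha hb, ?_⟩
        rw [map_mul, (hcommute a ha b hb).mul_pow, ha', hb', one_mul]
      one_mem' := ⟨L.one_mem, by rw [map_one, one_pow]⟩
      inv_mem' := by
        rintro a ⟨ha, ha'⟩
        refine ⟨L.inv_mem ha, ?_⟩
        rw [map_inv, inv_pow, ha', inv_one] }
  have hTn : T.Normal := by
    constructor
    rintro a ⟨ha, ha'⟩ g
    refine ⟨hLn.conj_mem a ha g, ?_⟩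
    rw [map_mul, map_mul, map_inv, conj_pow, ha', mul_one, mul_inv_cancel]
  have hZT : Z ≤ T := fun z hz => ⟨hZL hz, by rw [(hker z).mpr hz, one_pow]⟩
  have hTL : T ≤ L := fun a ha => ha.1
  have hTeq : T = L := by
    rcases hmin T hTn hZT hTL with h | h
    · exfalso
      have h1 : l₁ ∈ T := ⟨hl₁L, hl₁q⟩
      rw [h] at h1
      exact hl₁Z h1
    · exact h
  have hpow : ∀ l ∈ L, l ^ q ∈ Z := by
    intro l hl
    rw [← hTeq] at hl
    rw [← hker, map_pow]
    exact hl.2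
  have hqne : q ≠ p := by
    intro h
    have h1 : L ≤ Subgroup.normalizer ((P : Subgroup G) : Set G) :=
      le_normalizer P L (by rw [← h]; exact hpow)
    have h2 := hB L hLn fun h3 => hLZ (le_antisymm h3 hZL)
    rw [sup_eq_right.mpr h1] at h2
    exact hP h2
  refine ⟨q, hqp, hqne, L, ⟨hLn, hZL, hpow, hcom, ?_⟩, hLZ, hmin⟩
  intro l hl hlc
  have h1 : (L ⊓ Subgroup.centralizer (L : Set G)).Normal := inferInstance
  refine hA _ h1 ?_ ⟨hl, ?_⟩
  · rintro a ⟨ha, -⟩ b ⟨-, hb⟩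
    exact Subgroup.mem_centralizer_iff.mp hb a ha
  · exact Subgroup.mem_centralizer_iff.mpr fun m hm => (hlc m hm).symm

end

end Pool.Agent.K3h43.IN
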