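import Pool.Agent.K3h83.IN.Stm4
import Pool.Agent.K3h43.IN.G1a

/-!
# Existence of a normal subgroup of symplectic type
-/

set_option autoImplicit false

open scoped BigOperators Classical

noncomputable section

namespace Pool.Agent.K3h43.IN

open Pool.Agent.Helper884 Pool.Agent.K3h3.KB Pool.Agent.K3h3.MK
open Pool.Agent.K3h83.IN

theorem t_G1 : G1 := by
  intro p _ G _ _ P hP hA hB B hBn hBs hBz
  obtain ⟨q, hq, hqp, L, ⟨h1, h2, h3, h4, h5⟩, h6, h7⟩ := main p P hP hA hB B hBn hBs hBz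
  exact ⟨q, hq, hqp, L, ⟨h1, h2, h3, h4, h5⟩, h6, h7⟩

end Pool.Agent.K3h43.IN
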